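import Mathlib
import Pool.Agent.Helper50.CP.Main

/-!
Problem MP_a3face_gt, Q1: the `L¹` bound for the scalar curvature of the metrics with a lower
Ricci bound in a conformal class of bounded geometry.
-/

set_option autoImplicit false

namespace Pool.Agent.Results.MP_a3face_gt.ConformalClasses

open scoped ContDiff
open Pool.Agent.Helper49.Ric Pool.Agent.Helper73.HB Pool.Agent.Helper50.CF
  Pool.Agent.Helper50.CG Pool.Agent.Helper50.CP MeasureTheory

/-- For `n ≥ 3`, `K ≥ 1`, `S`, `Lam` there is a constant `C` with the following property. Let `G` be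
a smooth Riemannian metric and `u` a smooth function on an open set `Ω ⊆ ℝⁿ` containing the closed
Euclidean ball `B̄(a, 2r)`, with `|v|² ≤ K G(v,v)`, `G(v,v) ≤ K |v|²` and `r² Ric_G(v,v) ≤ K |v|²` on
`A = B(a, 2r)`. Let the conformal metric `g = e^{2u} G` satisfy `Ric_g ≥ -lam g` on `A`, `lam ≥ 0`,
the Sobolev–Poincaré inequality with constant `S` for functions with compact support in `A` (this
holds if the Sobolev inequality does), and `lam Vol_g(A)^{2/n} ≤ Lam`. Then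
`∫_{B(a, r)} Scal_g dv_g ≤ C Vol_g(A)^{(n-2)/n}`. -/
theorem result {n : ℕ} (hn : 3 ≤ n) {K : ℝ} (hK : 1 ≤ K) (S Lam : ℝ) : ∃ C : ℝ,
    ∀ (Ω : Set (Fin n → ℝ)) (G : (Fin n → ℝ) → Matrix (Fin n) (Fin n) ℝ)
      (u : (Fin n → ℝ) → ℝ) (a : Fin n → ℝ) (r lam : ℝ),
      IsOpen Ω → IsMetricOn Ω G → (∀ p ∈ Ω, ContDiffAt ℝ ∞ u p) → 0 < r →
      ecball a (2 * r) ⊆ Ω →
      (∀ p ∈ eball a (2 * r), ∀ v : Fin n → ℝ,
        ∑ i, v i ^ 2 ≤ K * ∑ i, ∑ j, G p i j * v i * v j) →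
      (∀ p ∈ eball a (2 * r), ∀ v : Fin n → ℝ,
        ∑ i, ∑ j, G p i j * v i * v j ≤ K * ∑ i, v i ^ 2) →
      (∀ p ∈ eball a (2 * r), ∀ v : Fin n → ℝ,
        r ^ 2 * ∑ i, ∑ j, ricci G i j p * v i * v j ≤ K * ∑ i, v i ^ 2) →
      0 ≤ lam →
      (∀ p ∈ eball a (2 * r), ∀ v : Fin n → ℝ,
        -lam * ∑ i, ∑ j, cmet u G p i j * v i * v j ≤
          ∑ i, ∑ j, ricci (cmet u G) i j p * v i * v j) →
      SobPoin (cmet u G) (eball a (2 * r)) S →
      lam * gvol (cmet u G) (eball a (2 * r)) ^ (2 / n : ℝ) ≤ Lam →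
      ∫ p in eball a r, scal (cmet u G) p * Real.sqrt (cmet u G p).det ≤
        C * gvol (cmet u G) (eball a (2 * r)) ^ ((n - 2) / n : ℝ) := by
  obtain ⟨C, hC⟩ := main_sp (n := n) K S Lam
  exact ⟨C, fun Ω G u a r lam hΩ hG hu hr hs hlow hup hric hlam hR hS hL =>
    hC ⟨hn, hK, ⟨hΩ, hG, hr, hs, hlow, hup, hric⟩, hu, hlam, hR, hS, hL⟩⟩

end Pool.Agent.Results.MP_a3face_gt.ConformalClasses
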