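import Mathlib
import Pool.Agent.Helper73.HC.Fin

/-!
Problem MP_a3face_gt, Q1: an integral bound for the Ricci curvature traced against a field `P` of
positive semidefinite matrices with `P² ≤ Σ_a ∇u_a ⊗ ∇u_a`, for a map `u` to `ℝᴺ` whose components
have bounded gradient and bounded gradient of the Laplacian (for instance harmonic functions or
eigenfunctions), under a lower bound for the Ricci curvature only. `P = σ g⁻¹` gives the scalar
curvature weighted by the smallest singular value of `du`; `N < n` gives partial traces.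
-/

set_option autoImplicit false

namespace Pool.Agent.Results.MP_a3face_gt.WeightedScalarBound

open scoped ContDiff
open Pool.Agent.Helper49.Ric Pool.Agent.Helper73.HB MeasureTheory

/-- Let `G` be a smooth Riemannian metric on an open set `Ω ⊆ ℝⁿ`, let `0 < r < R`, let the
geodesic ball `B_R(x)` of `(Ω, G)` be contained in a compact subset of `Ω`, and let `Ric ≥ -lam` on
`B_R(x)`, `lam ≥ 0`. Let `u₁, …, u_N` be smooth functions on `B_R(x)` with `|∇u_a| ≤ 1` and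
`|∇Δu_a| ≤ A` (`A = 0` for harmonic functions), and let `P = (Pⁱʲ)` be a measurable field of
symmetric positive semidefinite matrices with `|P ξ|² ≤ Σ_a ⟨∇u_a, ξ⟩²` for all covectors `ξ` on
`B_r(x)` (that is `P² ≤ Σ_a ∇u_a ⊗ ∇u_a`; equality is the square root of `Σ_a ∇u_a ⊗ ∇u_a`). Then
`∫_{B_r(x)} Σᵢⱼ Pⁱʲ (Ricᵢⱼ + lam Gᵢⱼ) dv ≤ N (8/(R-r)² + 3 (lam + A)/2) Vol(B_R(x))`. -/
theorem result {n N : ℕ} {Ω : Set (Fin n → ℝ)} (hΩ : IsOpen Ω)
    {G : (Fin n → ℝ) → Matrix (Fin n) (Fin n) ℝ} (hG : IsMetricOn Ω G)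
    {x : Fin n → ℝ} {r R : ℝ} (hr : 0 < r) (hrR : r < R)
    {K : Set (Fin n → ℝ)} (hK : IsCompact K) (hKΩ : K ⊆ Ω) (hB : gball Ω G x R ⊆ K)
    {lam A : ℝ} (hlam : 0 ≤ lam) (hA : 0 ≤ A)
    (hRic : ∀ p ∈ gball Ω G x R, ∀ v : Fin n → ℝ,
      -lam * ∑ i, ∑ j, G p i j * v i * v j ≤ ∑ i, ∑ j, ricci G i j p * v i * v j)
    (u : Fin N → (Fin n → ℝ) → ℝ) (hu : ∀ a, ∀ p ∈ gball Ω G x R, ContDiffAt ℝ ∞ (u a) p)
    (hgrad : ∀ a, ∀ p ∈ gball Ω G x R,
      ∑ i, ∑ j, (G p)⁻¹ i j * pd i (u a) p * pd j (u a) p ≤ 1)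
    (hlap : ∀ a, ∀ p ∈ gball Ω G x R,
      ∑ i, ∑ j, (G p)⁻¹ i j * pd i (lap G (u a)) p * pd j (lap G (u a)) p ≤ A ^ 2)
    (P : (Fin n → ℝ) → Matrix (Fin n) (Fin n) ℝ) (hPm : ∀ i j, Measurable fun p => P p i j)
    (hP : ∀ p ∈ gball Ω G x r, (P p).PosSemidef)
    (hPu : ∀ p ∈ gball Ω G x r, ∀ ξ : Fin n → ℝ,
      ∑ i, ∑ j, G p i j * (P p).mulVec ξ i * (P p).mulVec ξ j ≤
        ∑ a, (∑ i, grad G (u a) i p * ξ i) ^ 2) :
    ∫⁻ p in gball Ω G x r, ENNReal.ofReal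
        ((∑ i, ∑ j, P p i j * (ricci G i j p + lam * G p i j)) * Real.sqrt (G p).det) ≤
      ENNReal.ofReal (N * (8 / (R - r) ^ 2 + 3 / 2 * (lam + A))) *
        ∫⁻ p in gball Ω G x R, ENNReal.ofReal (Real.sqrt (G p).det) :=
  Pool.Agent.Helper73.HC.main_boundP hΩ hG hlam hr hrR hK hKΩ hB hRic hu hA hlap hgrad hPm hP hPu

end Pool.Agent.Results.MP_a3face_gt.WeightedScalarBound
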