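import Mathlib
import Pool.Agent.Helper50.YL.Main4

/-!
Problem MP_a3face_gt, Q1 (`λ = 0`): Yau's bound for the integral of the scalar curvature over
geodesic balls, with the sharp dependence on the volume, for conformally flat metrics on `ℝⁿ` with
nonnegative Ricci curvature: complete metrics, and the local form (a concentric geodesic ball is
relatively compact).
-/

set_option autoImplicit false

namespace Pool.Agent.Results.MP_a3face_gt.YauLocal

open scoped ContDiff
open Pool.Agent.Helper49.Ric Pool.Agent.Helper73.HB Pool.Agent.Helper50.CF MeasureTheory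

/-- For every `n ≥ 3` there are constants `C` and `Λ` such that for every Riemannian metric
`g = e^{2u}|dx|²` on `ℝⁿ` (`u` smooth) with `Ric_g ≥ 0`, every point `x` and every `r > 0`: if the
geodesic ball `B_{Λr}(x)` is relatively compact in `ℝⁿ`, or if `g` is complete, then the scalar
curvature is integrable on the geodesic ball `Bᵣ(x)` and
`∫_{Bᵣ(x)} Scal dv ≤ C rⁿ⁻² min(1, Vol(Bᵣ(x)) / rⁿ)^{(n-3)/(n-1)}`. -/
theorem result {n : ℕ} (hn : 3 ≤ n) : ∃ C Λ : ℝ, ∀ u : (Fin n → ℝ) → ℝ, ContDiff ℝ ∞ u →
    NonnegRicci (conf u) → ∀ (x : Fin n → ℝ) (r : ℝ), 0 < r →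
      ((∃ K : Set (Fin n → ℝ), IsCompact K ∧ gball Set.univ (conf u) x (Λ * r) ⊆ K) ∨
        IsCompleteMetric (conf u)) →
      IntegrableOn (fun p => scal (conf u) p * Real.sqrt (conf u p).det)
        (gball Set.univ (conf u) x r) ∧
      ∫ p in gball Set.univ (conf u) x r, scal (conf u) p * Real.sqrt (conf u p).det ≤
        C * r ^ (n - 2) * (min 1 (gvol (conf u) (gball Set.univ (conf u) x r) / r ^ n)) ^
          (((n : ℝ) - 3) / (n - 1)) := by
  obtain ⟨C, Λ, H⟩ := Pool.Agent.Helper50.YL.exists_yau4 hn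
  refine ⟨C, Λ, fun u hu hR x r hr h => H u hu hR x r hr ?_⟩
  rcases h with h | h
  · exact h
  · exact Pool.Agent.Helper50.YL.cpl_of_complete hn hu hR h x (Λ * r)

end Pool.Agent.Results.MP_a3face_gt.YauLocal
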